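import Mathlib
import Pool.Agent.Q256.UG.Fin

set_option autoImplicit false

/-!
# Almost all plane curves with an integer point have exactly one

Let `d ≥ 7` and let `F` run through all the integral polynomials in two variables of degree at most
`d` with coefficients of absolute value at most `H`. We show without any hypothesis that among those
`F` for which the curve `F = 0` has an integer point, all but a proportion `O(H ^ (-1/4))` have
exactly ONE integer point, without any restriction on the size of the points, and that this point has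
size at most `R` except for a proportion `O(R ^ (-(d - 2)) + H ^ (-1/4))`. For `3 ≤ d ≤ 6` the same is
shown for the points of size at most `H ^ (d - 1 - η)`.
-/

namespace Pool.Agent.Results.MP_821da1_nt.OnePointAllSizes

open MvPolynomial

/-- The polynomials in `ℤ[x, y]` of degree at most `d` all of whose coefficients have absolute
value at most `H`. -/
def Polys (d H : ℕ) : Set (MvPolynomial (Fin 2) ℤ) :=
  {F | F.totalDegree ≤ d ∧ ∀ α, |F.coeff α| ≤ H}

/-- All the integer points `(x, y)` on the curve `F = 0`. -/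
def Points (F : MvPolynomial (Fin 2) ℤ) : Set (ℤ × ℤ) := {p | eval ![p.1, p.2] F = 0}

/-- The integer points `(x, y)` of size `max(|x|, |y|)` at most `T` on the curve `F = 0`. -/
def PointsUpTo (F : MvPolynomial (Fin 2) ℤ) (T : ℕ) : Set (ℤ × ℤ) :=
  {p | p ∈ Points F ∧ max |p.1| |p.2| ≤ T}

open Pool.Agent.Q256.UG in
theorem all_sizes (d : ℕ) (hd : 7 ≤ d) :
    ∃ C : ℝ, 0 < C ∧ ∀ H : ℕ, 1 ≤ H →
      Nat.card (Polys d H) = (2 * H + 1) ^ ((d + 1) * (d + 2) / 2) ∧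
      (2 * H + 1) ^ ((d + 1) * (d + 2) / 2 - 1) ≤
        Nat.card {F | F ∈ Polys d H ∧ (Points F).Nonempty} ∧
      (Nat.card {F | F ∈ Polys d H ∧ (Points F).Nonempty} : ℝ) ≤
        C * (2 * H + 1) ^ ((d + 1) * (d + 2) / 2 - 1) ∧
      (Nat.card {F | F ∈ Polys d H ∧ (Points F).Nontrivial} : ℝ) ≤
        C * (H : ℝ) ^ (-(1 / 4 : ℝ)) * Nat.card {F | F ∈ Polys d H ∧ (Points F).Nonempty} ∧
      ∀ R : ℕ, (Nat.card {F | F ∈ Polys d H ∧
          ∃ p ∈ Points F, (R : ℤ) < max |p.1| |p.2|} : ℝ) ≤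
        C * (1 / ((R : ℝ) + 1) ^ (d - 2) + (H : ℝ) ^ (-(1 / 4 : ℝ))) *
          Nat.card {F | F ∈ Polys d H ∧ (Points F).Nonempty} := by
  have hN : (d + 1) * (d + 2) / 2 = NC d := by
    unfold NC
    rw [Nat.choose_two_right]
    congr 1
    have : d + 2 - 1 = d + 1 := by omega
    rw [this, mul_comm]
  rw [hN]
  obtain ⟨C1, hC1, h1⟩ := h_tlg d hd
  obtain ⟨C2, hC2, h2⟩ := h_ung d hd
  have hpf : ∀ H : ℕ, (Polys d H).Finite := fun H => Pool.Agent.Q256.UP.finite_pbox d H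
  have hcard0 : ∀ H : ℕ, Nat.card {F | F ∈ Polys d H ∧ eval ![(0 : ℤ), 0] F = 0} * (H + 1) ≤
      (2 * (2 * H) + 1) ^ NC d := fun H => Pool.Agent.Q256.UP.count_origin d H ![(0 : ℤ), 0]
  have hNC1 : 1 ≤ NC d := by
    unfold NC
    exact Nat.choose_pos (by omega)
  refine ⟨2 * C1 + C2 + 5 ^ NC d, by positivity, fun H hH => ?_⟩
  have hH0 : (0 : ℝ) < H := by exact_mod_cast hH
  have hH1 : (1 : ℝ) ≤ H := by exact_mod_cast hH
  have hfin : (Polys d H).Finite := hpf H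
  have h5 : (0 : ℝ) ≤ 5 ^ NC d := by positivity
  -- the lower bound
  have hlow : (2 * H + 1) ^ (NC d - 1) ≤
      Nat.card {F | F ∈ Polys d H ∧ (Points F).Nonempty} := by
    have h3 := Pool.Agent.Q256.UG.Unq.one_ge d H 0
    have h4 : Nat.card {F | F ∈ Pool.Agent.Q256.UG.Unq.Polys d H ∧
        (Pool.Agent.Q256.UG.Unq.Points F 0).Nonempty} ≤
        Nat.card {F | F ∈ Polys d H ∧ (Points F).Nonempty} := by
      rw [Nat.card_coe_set_eq, Nat.card_coe_set_eq]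
      apply Set.ncard_le_ncard _ (hfin.subset (fun F hF => hF.1))
      rintro F ⟨hF, p, hp⟩
      exact ⟨hF, p, hp.2⟩
    exact h3.trans h4
  have hlowR : (H : ℝ) ^ (NC d - 1) ≤
      Nat.card {F | F ∈ Polys d H ∧ (Points F).Nonempty} := by
    calc (H : ℝ) ^ (NC d - 1) ≤ (2 * (H : ℝ) + 1) ^ (NC d - 1) := by
          apply pow_le_pow_left₀ hH0.le; linarith
      _ = ((2 * H + 1 : ℕ) : ℝ) ^ (NC d - 1) := by push_cast; rfl
      _ ≤ _ := by exact_mod_cast hlow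
  have hs1 : (H : ℝ) ^ (-(1 / 4 : ℝ)) ≤ 1 := Real.rpow_le_one_of_one_le_of_nonpos hH1 (by norm_num)
  have hs0 : 0 ≤ (H : ℝ) ^ (-(1 / 4 : ℝ)) := (Real.rpow_pos_of_pos hH0 _).le
  have htail : ∀ R : ℕ, (Nat.card {F | F ∈ Polys d H ∧
          ∃ p ∈ Points F, (R : ℤ) < max |p.1| |p.2|} : ℝ) ≤
        C1 * (H : ℝ) ^ (NC d - 1) *
          (1 / ((R : ℝ) + 1) ^ (d - 2) + (H : ℝ) ^ (-(1 / 4 : ℝ))) := by
    intro R
    refine le_trans ?_ (h1 H R hH)
    rw [Nat.card_coe_set_eq, Nat.card_coe_set_eq]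
    have : ({F | F ∈ Polys d H ∧ ∃ p ∈ Points F, (R : ℤ) < max |p.1| |p.2|}).ncard ≤
        ({F | F ∈ Pool.Agent.Q256.UP.PBox d H ∧
          ∃ x y : ℤ, (R : ℤ) < max |x| |y| ∧ eval ![x, y] F = 0}).ncard := by
      apply Set.ncard_le_ncard _ (hfin.subset (fun F hF => hF.1))
      rintro F ⟨hF, p, hp, hR⟩
      exact ⟨hF, p.1, p.2, hR, hp⟩
    exact_mod_cast this
  refine ⟨?_, hlow, ?_, ?_, ?_⟩
  · exact Pool.Agent.Q256.UP.card_pbox d H
  · -- the upper bound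
    have h3 : ({F | F ∈ Polys d H ∧ (Points F).Nonempty}).ncard ≤
        ({F | F ∈ Polys d H ∧ eval ![(0 : ℤ), 0] F = 0}).ncard +
        ({F | F ∈ Polys d H ∧ ∃ p ∈ Points F, ((0 : ℕ) : ℤ) < max |p.1| |p.2|}).ncard := by
      refine le_trans (Set.ncard_le_ncard ?_ ?_) (Set.ncard_union_le _ _)
      · rintro F ⟨hF, p, hp⟩
        rcases eq_or_ne p (0, 0) with h0 | h0
        · left
          refine ⟨hF, ?_⟩
          rw [h0] at hp
          exact hp
        · right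
          refine ⟨hF, p, hp, ?_⟩
          rw [Nat.cast_zero]
          by_contra hcon
          rw [not_lt] at hcon
          apply h0
          have e1 : |p.1| ≤ 0 := (le_max_left _ _).trans hcon
          have e2 : |p.2| ≤ 0 := (le_max_right _ _).trans hcon
          exact Prod.ext (abs_nonpos_iff.1 e1) (abs_nonpos_iff.1 e2)
      · exact (hfin.subset (fun F hF => hF.1)).union (hfin.subset (fun F hF => hF.1))
    have h4 := htail 0
    rw [Nat.card_coe_set_eq] at h4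
    have h6 := hcard0 H
    rw [Nat.card_coe_set_eq] at h6
    rw [Nat.card_coe_set_eq]
    have h7 : (({F | F ∈ Polys d H ∧ (Points F).Nonempty}).ncard : ℝ) ≤
        (({F | F ∈ Polys d H ∧ eval ![(0 : ℤ), 0] F = 0}).ncard : ℝ) +
        (({F | F ∈ Polys d H ∧ ∃ p ∈ Points F, ((0 : ℕ) : ℤ) < max |p.1| |p.2|}).ncard : ℝ) := by
      exact_mod_cast h3
    have h8 : (({F | F ∈ Polys d H ∧ eval ![(0 : ℤ), 0] F = 0}).ncard : ℝ) ≤
        5 ^ NC d * (H : ℝ) ^ (NC d - 1) := by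
      have h9 : (({F | F ∈ Polys d H ∧ eval ![(0 : ℤ), 0] F = 0}).ncard : ℝ) * (H + 1) ≤
          (2 * (2 * (H : ℝ)) + 1) ^ NC d := by exact_mod_cast h6
      have h10 : (2 * (2 * (H : ℝ)) + 1) ^ NC d ≤ (5 * (H : ℝ)) ^ NC d := by
        apply pow_le_pow_left₀ (by positivity); linarith
      have h11 : (5 * (H : ℝ)) ^ NC d = 5 ^ NC d * (H : ℝ) ^ (NC d - 1) * H := by
        rw [mul_pow, mul_assoc, ← pow_succ, Nat.sub_add_cancel hNC1]
      have h12 : (({F | F ∈ Polys d H ∧ eval ![(0 : ℤ), 0] F = 0}).ncard : ℝ) * H ≤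
          5 ^ NC d * (H : ℝ) ^ (NC d - 1) * H := by
        rw [← h11]
        refine le_trans ?_ (h9.trans h10)
        apply mul_le_mul_of_nonneg_left _ (Nat.cast_nonneg _)
        linarith
      exact le_of_mul_le_mul_right h12 hH0
    have h13 : (({F | F ∈ Polys d H ∧
        ∃ p ∈ Points F, ((0 : ℕ) : ℤ) < max |p.1| |p.2|}).ncard : ℝ) ≤
        C1 * (H : ℝ) ^ (NC d - 1) * 2 := by
      refine h4.trans ?_
      apply mul_le_mul_of_nonneg_left _ (by positivity)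
      push_cast
      rw [zero_add, one_pow, div_one]
      linarith
    have h14 : (H : ℝ) ^ (NC d - 1) ≤ (2 * (H : ℝ) + 1) ^ (NC d - 1) := by
      apply pow_le_pow_left₀ hH0.le; linarith
    have h15 : (({F | F ∈ Polys d H ∧ (Points F).Nonempty}).ncard : ℝ) ≤
        (2 * C1 + 5 ^ NC d) * (H : ℝ) ^ (NC d - 1) := by linarith
    refine h15.trans ?_
    have h16 : (0 : ℝ) ≤ (2 * (H : ℝ) + 1) ^ (NC d - 1) := by positivity
    calc (2 * C1 + 5 ^ NC d) * (H : ℝ) ^ (NC d - 1) ≤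
        (2 * C1 + 5 ^ NC d) * (2 * (H : ℝ) + 1) ^ (NC d - 1) :=
          mul_le_mul_of_nonneg_left h14 (by positivity)
      _ ≤ _ := by
          apply mul_le_mul_of_nonneg_right _ h16
          linarith
  · have h3 := h2 H hH
    have h4 : (Nat.card {F | F ∈ Polys d H ∧ (Points F).Nontrivial} : ℝ) ≤
        C2 * (H : ℝ) ^ (NC d - 1) * (H : ℝ) ^ (-(1 / 4 : ℝ)) := h3
    refine h4.trans ?_
    have h6 : C2 * (H : ℝ) ^ (NC d - 1) * (H : ℝ) ^ (-(1 / 4 : ℝ)) =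
        (C2 * (H : ℝ) ^ (-(1 / 4 : ℝ))) * (H : ℝ) ^ (NC d - 1) := by ring
    rw [h6]
    apply mul_le_mul _ hlowR (by positivity) (by positivity)
    apply mul_le_mul_of_nonneg_right _ hs0
    linarith
  · intro R
    refine (htail R).trans ?_
    have h6 : C1 * (H : ℝ) ^ (NC d - 1) *
          (1 / ((R : ℝ) + 1) ^ (d - 2) + (H : ℝ) ^ (-(1 / 4 : ℝ))) =
        (C1 * (1 / ((R : ℝ) + 1) ^ (d - 2) + (H : ℝ) ^ (-(1 / 4 : ℝ)))) *
          (H : ℝ) ^ (NC d - 1) := by ring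
    rw [h6]
    have h7 : (0 : ℝ) ≤ 1 / ((R : ℝ) + 1) ^ (d - 2) + (H : ℝ) ^ (-(1 / 4 : ℝ)) := by positivity
    apply mul_le_mul _ hlowR (by positivity) (by positivity)
    apply mul_le_mul_of_nonneg_right _ h7
    linarith

theorem upTo_eq (F : MvPolynomial (Fin 2) ℤ) (T : ℕ) :
    PointsUpTo F T = Pool.Agent.Q256.UG.Unq.Points F T := by
  ext p
  constructor
  · rintro ⟨h1, h2⟩
    exact ⟨h2, h1⟩
  · rintro ⟨h1, h2⟩
    exact ⟨h2, h1⟩

/-- Let `N = (d+1)(d+2)/2`. (1) Let `d ≥ 7`. There is `C` such that for all `H ≥ 1`: between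
`(2H+1)^(N-1)` and `C (2H+1)^(N-1)` of the `(2H+1)^N` polynomials have an integer point; all but a
proportion `C H^(-1/4)` of these have exactly one; all but a proportion
`C (1/(R+1)^(d-2) + H^(-1/4))` of them have only integer points of size at most `R`.
(2) Let `d ≥ 3` and `η > 0`. There are `C`, `δ > 0` such that for `H ≥ 1`, `T ≤ H^(d-1-η)`: among the
polynomials which have an integer point of size at most `T` all but a proportion `C H^(-δ)` have
exactly one such point, and all but a proportion `C (1/(R+1)^(d-2) + H^(-δ))` have no integer point of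
size in `(R, T]`. -/
theorem result :
    (∀ d : ℕ, 7 ≤ d → ∃ C : ℝ, 0 < C ∧ ∀ H : ℕ, 1 ≤ H →
      Nat.card (Polys d H) = (2 * H + 1) ^ ((d + 1) * (d + 2) / 2) ∧
      (2 * H + 1) ^ ((d + 1) * (d + 2) / 2 - 1) ≤
        Nat.card {F | F ∈ Polys d H ∧ (Points F).Nonempty} ∧
      (Nat.card {F | F ∈ Polys d H ∧ (Points F).Nonempty} : ℝ) ≤
        C * (2 * H + 1) ^ ((d + 1) * (d + 2) / 2 - 1) ∧
      (Nat.card {F | F ∈ Polys d H ∧ (Points F).Nontrivial} : ℝ) ≤
        C * (H : ℝ) ^ (-(1 / 4 : ℝ)) * Nat.card {F | F ∈ Polys d H ∧ (Points F).Nonempty} ∧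
      ∀ R : ℕ, (Nat.card {F | F ∈ Polys d H ∧
          ∃ p ∈ Points F, (R : ℤ) < max |p.1| |p.2|} : ℝ) ≤
        C * (1 / ((R : ℝ) + 1) ^ (d - 2) + (H : ℝ) ^ (-(1 / 4 : ℝ))) *
          Nat.card {F | F ∈ Polys d H ∧ (Points F).Nonempty}) ∧
    (∀ d : ℕ, 3 ≤ d → ∀ η : ℝ, 0 < η → ∃ C δ : ℝ, 0 < C ∧ 0 < δ ∧ ∀ H T : ℕ, 1 ≤ H →
      (T : ℝ) ≤ (H : ℝ) ^ ((d : ℝ) - 1 - η) →
      (Nat.card {F | F ∈ Polys d H ∧ (PointsUpTo F T).Nontrivial} : ℝ) ≤
        C * (H : ℝ) ^ (-δ) * Nat.card {F | F ∈ Polys d H ∧ (PointsUpTo F T).Nonempty} ∧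
      ∀ R : ℕ, (Nat.card {F | F ∈ Polys d H ∧
          ∃ p ∈ PointsUpTo F T, (R : ℤ) < max |p.1| |p.2|} : ℝ) ≤
        C * (1 / ((R : ℝ) + 1) ^ (d - 2) + (H : ℝ) ^ (-δ)) *
          Nat.card {F | F ∈ Polys d H ∧ (PointsUpTo F T).Nonempty}) := by
  refine ⟨all_sizes, fun d hd η hη => ?_⟩
  obtain ⟨C, δ, hC, hδ, h⟩ := (Pool.Agent.Q256.UG.Unq.unique_point d hd).2 η hη
  refine ⟨C, δ, hC, hδ, fun H T hH hT => ?_⟩
  have h1 := h H T hH hT
  simp only [upTo_eq]
  exact h1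

end Pool.Agent.Results.MP_821da1_nt.OnePointAllSizes
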