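import Mathlib
import Pool.Agent.Q273.SG.Law
import Pool.Agent.Q273.SG.Pad

/-!
# Effective Siegel near almost every polynomial

The integral polynomials `F` in two variables of degree at most `d` are compared, through the quotients
of their coefficients by one of them, with the points `u = (ξ, η)` of `ℝ ^ n × ∏_p ℤ_p ^ n`,
`n = d (d + 3) / 2`. For almost every `u` we bound all the integer points, of any size, on all but
finitely many of the curves `F = 0` close to `u`.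
-/

set_option autoImplicit false

open MeasureTheory MvPolynomial

namespace Pool.Agent.Results.MP_821da1_nt.EffectiveSiegelNearAdeles

/-- the largest absolute value of the coefficients -/
def size (F : MvPolynomial (Fin 2) ℤ) : ℕ := F.support.sup fun m => (F.coeff m).natAbs

/-- the sum of the absolute values of the coefficients -/
def len (F : MvPolynomial (Fin 2) ℤ) : ℕ := ∑ m ∈ F.support, (F.coeff m).natAbs

/-- all the integer points of the curve `F = 0` -/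
def Points (F : MvPolynomial (Fin 2) ℤ) : Set (ℤ × ℤ) := {p | eval ![p.1, p.2] F = 0}

/-- `F` has degree `d`, is irreducible over `ℚ` and its leading form, the part of degree `d`, is
squarefree over `ℚ` -/
def Curve (d : ℕ) (F : MvPolynomial (Fin 2) ℤ) : Prop :=
  F.totalDegree = d ∧ Irreducible (MvPolynomial.map (Int.castRingHom ℚ) F) ∧
    Squarefree (MvPolynomial.map (Int.castRingHom ℚ) (MvPolynomial.homogeneousComponent d F))

/-- the number of the monomials of degree at most `d`, minus one: `n = d (d + 3) / 2` -/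
def dimn (d : ℕ) : ℕ := (d + 1) * (d + 2) / 2 - 1

/-- the monomials of degree at most `d` other than `m₀` -/
def Monomials (d : ℕ) (m₀ : Fin 2 →₀ ℕ) : Type := {m : Fin 2 →₀ ℕ // m.degree ≤ d ∧ m ≠ m₀}

/-- the quotients of the other coefficients of `F` by the coefficient of `m₀`, in the order given by
a numbering `e` of the monomials -/
def ratio {d : ℕ} {m₀ : Fin 2 →₀ ℕ} (e : Fin (dimn d) ≃ Monomials d m₀)
    (F : MvPolynomial (Fin 2) ℤ) : Fin (dimn d) → ℚ :=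
  fun j => ((F.coeff (e j).1 : ℤ) : ℚ) / ((F.coeff m₀ : ℤ) : ℚ)

/-- the product of the groups `ℤ_p ^ n` over all primes `p`, with the product topology -/
abbrev ZHat (n : ℕ) : Type := (p : Nat.Primes) → Fin n → @PadicInt p.1 ⟨p.2⟩

/-- the proximity of `y` to `u = (ξ, η)` at the infinite place and at the primes in `V`:
`log max (1, 1 / |ξ - y|) + ∑_(p ∈ V) log max (1, 1 / |η_p - y|_p)`, with the maximum norms -/
noncomputable def m {n : ℕ} (V : Finset Nat.Primes) (u : (Fin n → ℝ) × ZHat n) (y : Fin n → ℚ) : ℝ :=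
  Real.log (max 1 (⨆ j : Fin n, |u.1 j - (y j : ℝ)|)⁻¹) + ∑ p ∈ V,
    haveI : Fact p.1.Prime := ⟨p.2⟩
    Real.log (max 1 (⨆ j : Fin n, ‖((u.2 p j : ℤ_[p.1]) : ℚ_[p.1]) - (y j : ℚ_[p.1])‖)⁻¹)

/-- the exponent of the bound for the integer points -/
def Ex (d : ℕ) : ℕ := 10 ^ 11 * 36 ^ d * (d + 1) ^ 13

open Q273.SG (CE S1 S2 S3 S4 siz)

/-- the exceptional sets: irreducible curves with an integer point beyond the bound -/
private lemma S1_eq (d : ℕ) : {F | Curve d F ∧ ¬ ∀ p ∈ Points F,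
    max |p.1| |p.2| ≤ (((d + 1) * len F) ^ Ex d : ℕ)} = S1 d := rfl

/-- **Effective Siegel near almost every polynomial.** Let `d ≥ 4`, `n = d (d + 3) / 2`, let `m₀` be a
monomial, `e` a numbering of the other monomials of degree at most `d`, let `μ` be a finite translation
invariant Borel measure on the compact group `ZHat n` (a multiple of Haar measure), `Y` any metric space
and `φ` any map from the polynomials to `Y`.

For almost every `u` with respect to the product of Lebesgue measure and `μ`, for all finite sets `V` of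
primes and all `ε > 0`:
1. all but finitely many of the `F` irreducible over `ℚ`, of degree `d`, with squarefree leading form and
   `m_V ≥ ((4 d - 2) / n + ε) log size` have ALL their integer points of size at most
   `((d + 1) len F) ^ Ex d`;
and if `d ≥ 7`, for the polynomials `F ≠ 0` of degree at most `d`:
2. for all `ρ > 0`, all but finitely many of the `F` with
   `m_V ≥ (1 - min (ρ (d - 2), 1 / 4) / n + ε) log size` have ALL their integer points of size at most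
   `size ^ ρ`;
3. all but finitely many of the `F` with `m_V ≥ (1 - 1 / (4 n) + ε) log size` have at most one integer
   point;
4. all but finitely many of the `F` with `m_V ≥ (1 + ε) log size` have no integer point.

For `τ > 0` the points of `Y` to which, for some `A`, infinitely many of the exceptional `F` have distance
at most `A size ^ (-τ)` form a set of Hausdorff dimension at most `s / τ`, where
5. `s = 4 d - 2` for the exceptions in 1. (`d ≥ 4`);
6. `s = n - min (ρ (d - 2), 1 / 4)`, `n - 1 / 4`, `n` for those in 2., 3., 4. (`d ≥ 7`).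

7. Let `p` be a prime, `μ_p` the Haar probability measure on `ℤ_p ^ (n + 1)`, whose elements `η` are
regarded as polynomials of degree at most `d` by a numbering of the monomials, `H₀ ≥ 1`, `τ > 0` and
`κ = (n + 1) τ - (4 d - 2) > 0`. The `η` for which some `F` of size at least `H₀`, irreducible over `ℚ`, of
degree `d`, with squarefree leading form, has `|η - F|_p ≤ (size F) ^ (-τ)` and an integer point of size
larger than `((d + 1) len F) ^ Ex d` form a set of measure at most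
`10 ^ 9 * 36 ^ d * (d + 1) ^ 8 * 5 ^ (4 d - 2) * H₀ ^ (-κ) / (1 - 2 ^ (-κ))`. -/
theorem result.{w} (d : ℕ) (hd : 4 ≤ d) (Y : Type w) [MetricSpace Y]
    (φ : MvPolynomial (Fin 2) ℤ → Y) :
    ((∀ m₀ : Fin 2 →₀ ℕ, m₀.degree ≤ d → Nonempty (Fin (dimn d) ≃ Monomials d m₀)) ∧
      Nonempty (Fin (dimn d + 1) ≃ {m : Fin 2 →₀ ℕ // m.degree ≤ d})) ∧
    (∀ (m₀ : Fin 2 →₀ ℕ) (e : Fin (dimn d) ≃ Monomials d m₀)
      [MeasurableSpace (ZHat (dimn d))] [BorelSpace (ZHat (dimn d))]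
      (μ : Measure (ZHat (dimn d))) [IsFiniteMeasure μ] [μ.IsAddLeftInvariant],
      ∀ᵐ u : (Fin (dimn d) → ℝ) × ZHat (dimn d) ∂(volume.prod μ),
        ∀ (V : Finset Nat.Primes) (ε : ℝ), 0 < ε →
        {F | Curve d F ∧
          ((4 * d - 2 : ℝ) / dimn d + ε) * Real.log (size F) ≤ m V u (ratio e F) ∧
          ¬ ∀ p ∈ Points F, max |p.1| |p.2| ≤ (((d + 1) * len F) ^ Ex d : ℕ)}.Finite ∧
        (7 ≤ d →
          (∀ ρ : ℝ, 0 < ρ → {F | F.totalDegree ≤ d ∧ F ≠ 0 ∧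
            (1 - min (ρ * ((d : ℝ) - 2)) (1 / 4) / dimn d + ε) * Real.log (size F) ≤
              m V u (ratio e F) ∧
            ∃ p ∈ Points F, (size F : ℝ) ^ ρ < ((max |p.1| |p.2| : ℤ) : ℝ)}.Finite) ∧
          {F | F.totalDegree ≤ d ∧ F ≠ 0 ∧
            (1 - 1 / 4 / dimn d + ε) * Real.log (size F) ≤ m V u (ratio e F) ∧
            (Points F).Nontrivial}.Finite ∧
          {F | F.totalDegree ≤ d ∧ F ≠ 0 ∧ (1 + ε) * Real.log (size F) ≤ m V u (ratio e F) ∧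
            (Points F).Nonempty}.Finite)) ∧
    (∀ τ : ℝ, 0 < τ →
      dimH {ξ : Y | ∃ A : ℝ, {F | Curve d F ∧ dist ξ (φ F) ≤ A * (size F : ℝ) ^ (-τ) ∧
        ¬ ∀ p ∈ Points F, max |p.1| |p.2| ≤ (((d + 1) * len F) ^ Ex d : ℕ)}.Infinite} ≤
          ENNReal.ofReal ((4 * d - 2 : ℝ) / τ) ∧
      (7 ≤ d →
        (∀ ρ : ℝ, 0 < ρ → dimH {ξ : Y | ∃ A : ℝ, {F | F.totalDegree ≤ d ∧ F ≠ 0 ∧
          dist ξ (φ F) ≤ A * (size F : ℝ) ^ (-τ) ∧
          ∃ p ∈ Points F, (size F : ℝ) ^ ρ < ((max |p.1| |p.2| : ℤ) : ℝ)}.Infinite} ≤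
            ENNReal.ofReal ((dimn d - min (ρ * ((d : ℝ) - 2)) (1 / 4)) / τ)) ∧
        dimH {ξ : Y | ∃ A : ℝ, {F | F.totalDegree ≤ d ∧ F ≠ 0 ∧
          dist ξ (φ F) ≤ A * (size F : ℝ) ^ (-τ) ∧ (Points F).Nontrivial}.Infinite} ≤
            ENNReal.ofReal ((dimn d - 1 / 4) / τ) ∧
        dimH {ξ : Y | ∃ A : ℝ, {F | F.totalDegree ≤ d ∧ F ≠ 0 ∧
          dist ξ (φ F) ≤ A * (size F : ℝ) ^ (-τ) ∧ (Points F).Nonempty}.Infinite} ≤
            ENNReal.ofReal (dimn d / τ))) ∧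
    (∀ (p : ℕ) [Fact p.Prime] (e : Fin (dimn d + 1) ≃ {m : Fin 2 →₀ ℕ // m.degree ≤ d})
      [MeasurableSpace (Fin (dimn d + 1) → ℤ_[p])] [BorelSpace (Fin (dimn d + 1) → ℤ_[p])]
      (μ : Measure (Fin (dimn d + 1) → ℤ_[p])) [IsProbabilityMeasure μ] [μ.IsAddLeftInvariant]
      (τ κ : ℝ) (H₀ : ℕ), 0 < τ → κ = (dimn d + 1 : ℝ) * τ - (4 * d - 2) → 0 < κ → 1 ≤ H₀ →
      μ {η | ∃ F, Curve d F ∧ H₀ ≤ size F ∧
          (∀ j, ‖η j - ((F.coeff (e j).1 : ℤ) : ℤ_[p])‖ ≤ (size F : ℝ) ^ (-τ)) ∧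
          ¬ ∀ P ∈ Points F, max |P.1| |P.2| ≤ (((d + 1) * len F) ^ Ex d : ℕ)} ≤
        ENNReal.ofReal (10 ^ 9 * 36 ^ d * (d + 1) ^ 8 * 5 ^ (4 * d - 2) * (H₀ : ℝ) ^ (-κ) /
          (1 - 2 ^ (-κ)))) := by
  refine ⟨⟨fun m₀ hm => Q273.SG.exists_num m₀ hm, Q273.SG.exists_num' d⟩, ?_, ?_, ?_⟩
  · intro m₀ e i1 i2 μ i3 i4
    filter_upwards [@Q273.SG.good_ae d hd i1 i2 μ i3 i4 (ratio e)] with u hu
    intro V ε hε
    obtain ⟨h1, h2⟩ := hu V ε hε
    refine ⟨h1.subset ?_, fun h7 => ?_⟩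
    · rintro F ⟨g1, g2, g3⟩
      exact ⟨⟨g1, g3⟩, g2⟩
    · obtain ⟨k1, k2, k3⟩ := h2 h7
      refine ⟨fun ρ hρ => (k1 ρ hρ).subset ?_, k2.subset ?_, k3.subset ?_⟩
      · rintro F ⟨g1, g2, g3, g4⟩
        exact ⟨⟨g1, g2, g4⟩, g3⟩
      · rintro F ⟨g1, g2, g3, g4⟩
        exact ⟨⟨g1, g2, g4⟩, g3⟩
      · rintro F ⟨g1, g2, g3, g4⟩
        exact ⟨⟨g1, g2, g4⟩, g3⟩
  · intro τ hτ
    have hd' : (4 : ℝ) ≤ d := by exact_mod_cast hd
    have hn1 : (1 : ℝ) ≤ Q273.SG.nn d := by exact_mod_cast Q273.SG.nn_pos (d := d) (by omega)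
    have key : ∀ (S : Set (MvPolynomial (Fin 2) ℤ)) (s : ℝ) (P : MvPolynomial (Fin 2) ℤ → Y → ℝ → Prop),
        0 ≤ s → CE S s → (∀ F ξ A, P F ξ A → F ∈ S ∧ dist ξ (φ F) ≤ A * (size F : ℝ) ^ (-τ)) →
        dimH {ξ : Y | ∃ A : ℝ, {F | P F ξ A}.Infinite} ≤ ENNReal.ofReal (s / τ) := by
      intro S s P hs hS hP
      obtain ⟨E, h2, h3⟩ := Q273.SG.dim_set φ hs hτ hS
      refine (dimH_mono ?_).trans h2
      rintro ξ ⟨A, hA⟩
      by_contra hξ
      refine hA ((h3 ξ hξ A).subset ?_)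
      intro F hF
      exact hP F ξ A hF
    refine ⟨?_, fun h7 => ⟨fun ρ hρ => ?_, ?_, ?_⟩⟩
    · exact key (S1 d) _ (fun F ξ A => Curve d F ∧ dist ξ (φ F) ≤ A * (size F : ℝ) ^ (-τ) ∧
        ¬ ∀ p ∈ Points F, max |p.1| |p.2| ≤ (((d + 1) * len F) ^ Ex d : ℕ)) (by linarith)
        (Q273.SG.cnt1 hd) (fun F ξ A h => ⟨⟨h.1, h.2.2⟩, h.2.1⟩)
    · have := min_le_right (ρ * ((d : ℝ) - 2)) (1 / 4)
      exact key (S2 d ρ) _ (fun F ξ A => F.totalDegree ≤ d ∧ F ≠ 0 ∧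
          dist ξ (φ F) ≤ A * (size F : ℝ) ^ (-τ) ∧
          ∃ p ∈ Points F, (size F : ℝ) ^ ρ < ((max |p.1| |p.2| : ℤ) : ℝ)) (by
            show (0 : ℝ) ≤ (Q273.SG.nn d : ℝ) - _
            linarith)
        (Q273.SG.cnt2 h7 hρ) (fun F ξ A h => ⟨⟨h.1, h.2.1, h.2.2.2⟩, h.2.2.1⟩)
    · exact key (S3 d) _ (fun F ξ A => F.totalDegree ≤ d ∧ F ≠ 0 ∧
          dist ξ (φ F) ≤ A * (size F : ℝ) ^ (-τ) ∧ (Points F).Nontrivial) (by
            show (0 : ℝ) ≤ (Q273.SG.nn d : ℝ) - _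
            linarith)
        (Q273.SG.cnt3 h7) (fun F ξ A h => ⟨⟨h.1, h.2.1, h.2.2.2⟩, h.2.2.1⟩)
    · exact key (S4 d) _ (fun F ξ A => F.totalDegree ≤ d ∧ F ≠ 0 ∧
          dist ξ (φ F) ≤ A * (size F : ℝ) ^ (-τ) ∧ (Points F).Nonempty) (by
            show (0 : ℝ) ≤ (Q273.SG.nn d : ℝ)
            linarith)
        (Q273.SG.cnt4 h7) (fun F ξ A h => ⟨⟨h.1, h.2.1, h.2.2.2⟩, h.2.2.1⟩)
  · intro p _ e _ _ μ _ _ τ κ H₀ hτ hκ hκ0 hH
    have hs : (((4 * d - 2 : ℕ) : ℝ)) = 4 * d - 2 := by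
      rw [Nat.cast_sub (by omega)]
      push_cast
      ring
    have hc : (((Fintype.card (Fin (dimn d + 1)) : ℕ) : ℝ)) = dimn d + 1 := by
      rw [Fintype.card_fin]
      push_cast
      rfl
    have h := Q273.SG.bc p μ (S1 d) siz (fun F j => F.coeff (e j).1)
      (10 ^ 9 * 36 ^ d * (d + 1) ^ 8) (4 * d - 2) (fun H => Q273.SG.cnt1N hd H) (τ := τ) hτ.le
      (by rw [hs, hc]; linarith) H₀ hH
    have hK : (((10 ^ 9 * 36 ^ d * (d + 1) ^ 8 : ℕ)) : ℝ) = 10 ^ 9 * 36 ^ d * (d + 1) ^ 8 := by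
      push_cast
      ring
    rw [hs, hc, ← hκ, hK] at h
    refine (measure_mono ?_).trans h
    rintro η ⟨F, h1, h2, h3, h4⟩
    exact ⟨F, ⟨h1, h4⟩, h2, h3⟩

end Pool.Agent.Results.MP_821da1_nt.EffectiveSiegelNearAdeles
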