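import Mathlib
import Pool.Agent.Q204.UF.Aff
import Pool.Agent.Q204.UF.IntH

set_option autoImplicit false

/-!
# Sums of units on all plane curves: a height bound linear in the height of the equation, or a
parametrisation by Laurent polynomials through the point

Fix a degree `D`, a number `r` and a finitely generated group `Γ` of algebraic numbers. There is ONE
constant `C` with the following property for ALL plane curves `F = 0` of degree at most `D` over all
number fields. Let `(x, y)` be a point of the curve, algebraic of any degree, of the form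
`∑ u j V j` (`j < r`), where the `u j` have a power in `Γ` and the `V j` are any pairs of algebraic
numbers. Then `h(x, y) ≤ C (1 + h(F) + h(V))`, unless for some integers `m j` of absolute value at
most `E(D, r)` the map `t ↦ ∑ t ^ m j u j V j` is a nonconstant map from the punctured line to the
curve `F = 0`, with the value `(x, y)` at `t = 1`.

For integers: if `F` has degree at most `D` and integral coefficients of absolute value at most `M` and
if `F = 0` has no nonconstant parametrisation by Laurent polynomials (for example, if `F` is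
absolutely irreducible of genus at least `1`), then all integer points `(x, y)` such that
`x = ∑ a j u j` and `y = ∑ b j u j` with `S`-units `u j` and integers `a j`, `b j` of absolute value at
most `H` satisfy `|x|, |y| ≤ (3 M H) ^ C`, where `C` depends only on `D`, `r` and `S`.
-/

namespace Pool.Agent.Results.MP_821da1_nt.LaurentDichotomy

open MvPolynomial
open Pool.Agent.Helper259.AbsHt

/-- The algebraic numbers. -/
abbrev Qbar : Type := AlgebraicClosure ℚ

/-- The height `h(1 : x)`: the absolute logarithmic height of the point with the projective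
coordinates `1` and `x i`. -/
noncomputable def height {ι : Type} [Finite ι] (x : ι → Qbar) : ℝ :=
  absLogHeight (fun o : Option ι => o.elim (1 : Qbar) x)

/-- The exponents of the monomials of degree at most `D` in two variables. -/
abbrev Exponents (D : ℕ) : Type := {α : Fin 2 →₀ ℕ // α.degree ≤ D}

instance finite_exponents (D : ℕ) : Finite (Exponents D) := Pool.Agent.Q204.UF.finite_AI 2 D

/-- The height `h(1 : F)` of the coefficients of a polynomial of degree at most `D`. -/
noncomputable def polyHeight (D : ℕ) (F : MvPolynomial (Fin 2) Qbar) : ℝ :=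
  height (fun α : Exponents D => coeff α.1 F)

/-- `t ↦ ∑ t ^ m j W j` is a nonconstant map from the punctured line to the curve `F = 0`. -/
def IsLaurentCurve {r : ℕ} (F : MvPolynomial (Fin 2) Qbar) (W : Fin r → Fin 2 → Qbar)
    (m : Fin r → ℤ) : Prop :=
  (∀ t : Qbar, t ≠ 0 → aeval (fun a => ∑ j, t ^ m j * W j a) F = 0) ∧
    ∃ t : Qbar, t ≠ 0 ∧ (fun a => ∑ j, t ^ m j * W j a) ≠ fun a => ∑ j, W j a

/-- All Laurent polynomials `x(t) = ∑ t ^ k c k 0`, `y(t) = ∑ t ^ k c k 1` with
`F (x(t), y(t)) = 0` are constant. -/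
def NoLaurentCurve (F : MvPolynomial (Fin 2) Qbar) : Prop :=
  ∀ (N : ℕ) (c : ℤ → Fin 2 → Qbar),
    (∀ t : Qbar, t ≠ 0 → aeval (fun a => ∑ k ∈ Finset.Icc (-(N : ℤ)) N, t ^ k * c k a) F = 0) →
    ∀ t : Qbar, t ≠ 0 → ∀ a, ∑ k ∈ Finset.Icc (-(N : ℤ)) N, t ^ k * c k a =
      ∑ k ∈ Finset.Icc (-(N : ℤ)) N, c k a

/-- Up to the sign, `u` is a product of powers, with integral exponents, of elements of `S`. -/
def UnitOf (S : Finset ℕ) (u : ℚ) : Prop := ∃ e : ℕ → ℤ, |u| = ∏ p ∈ S, (p : ℚ) ^ e p

theorem part1 (D : ℕ) (hD : 1 ≤ D) (r : ℕ) (Γ : Subgroup Qbarˣ) (hΓ : Γ.FG) :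
    ∃ C : ℝ, 0 ≤ C ∧ ∀ (F : MvPolynomial (Fin 2) Qbar) (V : Fin r → Fin 2 → Qbar)
        (u : Fin r → Qbarˣ),
        F.totalDegree ≤ D → (∀ j, ∃ k : ℕ, 0 < k ∧ u j ^ k ∈ Γ) →
        aeval (fun a => ∑ j, (u j : Qbar) * V j a) F = 0 →
        height (fun a => ∑ j, (u j : Qbar) * V j a) ≤
            C * (1 + polyHeight D F + height (fun p : Fin r × Fin 2 => V p.1 p.2)) ∨
          ∃ m : Fin r → ℤ, (∀ j, |m j| ≤ Pool.Agent.Q204.UF.expB D (r + 1)) ∧
            IsLaurentCurve F (fun j a => (u j : Qbar) * V j a) m := by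
  obtain ⟨C, hC0, hC⟩ := Pool.Agent.Q204.UF.aff_heights (n := 2) (q := 1) (r := r) D hD Γ hΓ
  refine ⟨C, hC0, fun F V u hF hu hx => ?_⟩
  by_contra hcon
  push Not at hcon
  obtain ⟨h1, h2⟩ := hcon
  refine absurd (hC (fun _ => F) u V (fun _ => hF) hu (fun _ => hx) fun m hm hL =>
    h2 m hm ⟨fun t ht => hL.1 t ht 0, hL.2⟩) (not_le.2 ?_)
  refine lt_of_le_of_lt (mul_le_mul_of_nonneg_left ?_ hC0) h1
  have h3 : Pool.Agent.Q204.UF.hFc D (fun _ : Fin 1 => F) ≤ polyHeight D F := by
    unfold Pool.Agent.Q204.UF.hFc Pool.Agent.Y215.AF.hA polyHeight height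
    have h := absLogHeight_comp_le
      (fun o : Option (Fin 1 × Pool.Agent.Q204.UF.AI 2 D) => o.map (fun x => (x.2 : Exponents D)))
      (fun o : Option (Exponents D) => o.elim (1 : Qbar) (fun α => coeff α.1 F))
    refine le_trans (le_of_eq ?_) h
    congr 1
    funext o
    cases o <;> rfl
  have h4 : Pool.Agent.Y215.AF.hAV V = height (fun p : Fin r × Fin 2 => V p.1 p.2) := rfl
  rw [h4]
  linarith

/-- a Laurent curve in the form of `NoLaurentCurve` -/
theorem no_curve {r : ℕ} (F : MvPolynomial (Fin 2) Qbar) (h : NoLaurentCurve F)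
    (W : Fin r → Fin 2 → Qbar) (m : Fin r → ℤ) : ¬ IsLaurentCurve F W m := by
  classical
  rintro ⟨h1, t, ht, h2⟩
  obtain ⟨N, hN⟩ : ∃ N : ℕ, ∀ j, |m j| ≤ N := by
    refine ⟨∑ j, (m j).natAbs, fun j => ?_⟩
    have h3 : (m j).natAbs ≤ ∑ j, (m j).natAbs :=
      Finset.single_le_sum (f := fun j => (m j).natAbs) (fun _ _ => Nat.zero_le _)
        (Finset.mem_univ j)
    have h4 : |m j| = ((m j).natAbs : ℤ) := Int.abs_eq_natAbs _
    omega
  have hsum : ∀ (t : Qbar) (a : Fin 2), ∑ k ∈ Finset.Icc (-(N : ℤ)) N,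
      t ^ k * (∑ j ∈ Finset.univ.filter (fun j => m j = k), W j a) = ∑ j, t ^ m j * W j a := by
    intro t a
    rw [← Finset.sum_fiberwise_of_maps_to (s := Finset.univ) (t := Finset.Icc (-(N : ℤ)) N)
      (g := m) (fun j _ => Finset.mem_Icc.2 (abs_le.1 (hN j)))]
    refine Finset.sum_congr rfl fun k _ => ?_
    rw [Finset.mul_sum]
    refine Finset.sum_congr rfl fun j hj => ?_
    rw [(Finset.mem_filter.1 hj).2]
  have h3 := h N (fun k a => ∑ j ∈ Finset.univ.filter (fun j => m j = k), W j a) (by
    intro s hs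
    simp_rw [hsum]
    exact h1 s hs) t ht
  apply h2
  funext a
  have h4 := h3 a
  rw [hsum] at h4
  have h5 := hsum 1 a
  simp only [one_zpow, one_mul] at h5
  rw [h4, h5]

/-- **Main theorem.** (1) For all `D`, `r` there is `E`, and for all finitely generated groups `Γ` of
algebraic numbers a constant `C`, such that for ALL polynomials `F` of degree at most `D` with
algebraic coefficients: if `(x, y) = ∑ u j V j` is a zero of `F`, where the `u j` have a power in `Γ`
and the `V j` are any pairs of algebraic numbers, then `h(x, y) ≤ C (1 + h(F) + h(V))` or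
`t ↦ ∑ t ^ m j u j V j` is a nonconstant map to the curve `F = 0` for some integers `m j`,
`|m j| ≤ E`.

(2) For all `D`, `r` and finite sets `S` of positive integers there is `C` such that for ALL `F` of
degree at most `D` with integral coefficients of absolute value at most `M` such that `F = 0` has no
nonconstant parametrisation by Laurent polynomials: if `(x, y)` is an integral zero of `F`,
`x = ∑ a j u j`, `y = ∑ b j u j`, where the `u j` are rational numbers which are up to the sign
products of powers of elements of `S` and the `a j`, `b j` are integers of absolute value at most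
`H`, then `|x| ≤ (3 M H) ^ C` and `|y| ≤ (3 M H) ^ C`. -/
theorem result (D : ℕ) (hD : 1 ≤ D) (r : ℕ) :
    (∃ E : ℕ, ∀ Γ : Subgroup Qbarˣ, Γ.FG → ∃ C : ℝ,
      ∀ (F : MvPolynomial (Fin 2) Qbar) (V : Fin r → Fin 2 → Qbar) (u : Fin r → Qbarˣ),
        F.totalDegree ≤ D → (∀ j, ∃ k : ℕ, 0 < k ∧ u j ^ k ∈ Γ) →
        aeval (fun a => ∑ j, (u j : Qbar) * V j a) F = 0 →
        height (fun a => ∑ j, (u j : Qbar) * V j a) ≤
            C * (1 + polyHeight D F + height (fun p : Fin r × Fin 2 => V p.1 p.2)) ∨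
          ∃ m : Fin r → ℤ, (∀ j, |m j| ≤ E) ∧
            IsLaurentCurve F (fun j a => (u j : Qbar) * V j a) m) ∧
    (∀ S : Finset ℕ, (∀ p ∈ S, p ≠ 0) → ∃ C : ℕ,
      ∀ (F : MvPolynomial (Fin 2) ℤ) (M H : ℕ) (a b : Fin r → ℤ) (u : Fin r → ℚ) (x y : ℤ),
        F.totalDegree ≤ D → 1 ≤ M → (∀ α, |coeff α F| ≤ M) →
        NoLaurentCurve (map (algebraMap ℤ Qbar) F) →
        1 ≤ H → (∀ j, |a j| ≤ H ∧ |b j| ≤ H ∧ UnitOf S (u j)) →
        (x : ℚ) = ∑ j, a j * u j → (y : ℚ) = ∑ j, b j * u j → aeval ![x, y] F = 0 →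
        |x| ≤ (3 * M * H) ^ C ∧ |y| ≤ (3 * M * H) ^ C) := by
  classical
  refine ⟨⟨Pool.Agent.Q204.UF.expB D (r + 1), fun Γ hΓ => ?_⟩, fun S hS => ?_⟩
  · obtain ⟨C, _, hC⟩ := part1 D hD r Γ hΓ
    exact ⟨C, hC⟩
  · obtain ⟨C, hC0, hC⟩ := part1 D hD r (Pool.Agent.Q204.UF.grpS S)
      (Pool.Agent.Q204.UF.grpS_fg S)
    refine ⟨⌈C⌉₊, fun F M H a b u x y hF hM hFM hno hH hab hx hy hxy => ?_⟩
    have hMH : (1 : ℝ) ≤ 3 * M * H := by
      have h1 : (1 : ℝ) ≤ M := by exact_mod_cast hM
      have h2 : (1 : ℝ) ≤ H := by exact_mod_cast hH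
      nlinarith
    -- the units
    have hu0 : ∀ j, u j ≠ 0 := by
      intro j h0
      obtain ⟨e, he⟩ := (hab j).2.2
      rw [h0, abs_zero] at he
      exact (Finset.prod_ne_zero_iff.2 fun p hp => zpow_ne_zero _
        (Nat.cast_ne_zero.2 (hS p hp))) he.symm
    have huQ : ∀ j, algebraMap ℚ Qbar (u j) ≠ 0 := fun j => (map_ne_zero _).2 (hu0 j)
    obtain ⟨v, hv⟩ : ∃ v : Fin r → Qbarˣ, ∀ j, (v j : Qbar) = algebraMap ℚ Qbar (u j) :=
      ⟨fun j => Units.mk0 _ (huQ j), fun j => rfl⟩
    obtain ⟨V, hV⟩ : ∃ V : Fin r → Fin 2 → Qbar, V = fun j => ![((a j : ℤ) : Qbar), ((b j : ℤ) : Qbar)] :=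
      ⟨_, rfl⟩
    have hpt : (fun i => ∑ j, (v j : Qbar) * V j i) = fun i : Fin 2 => ((![x, y] i : ℤ) : Qbar) := by
      funext i
      fin_cases i
      · have h1 := congrArg (algebraMap ℚ Qbar) hx
        rw [map_intCast, map_sum] at h1
        simp only [map_mul, map_intCast] at h1
        simp only [Fin.zero_eta, Matrix.cons_val_zero, h1]
        refine Finset.sum_congr rfl fun j _ => ?_
        rw [hv, hV, mul_comm]
        rfl
      · have h1 := congrArg (algebraMap ℚ Qbar) hy
        rw [map_intCast, map_sum] at h1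
        simp only [map_mul, map_intCast] at h1
        simp only [Fin.mk_one, Matrix.cons_val_one, Matrix.cons_val_fin_one, h1]
        refine Finset.sum_congr rfl fun j _ => ?_
        rw [hv, hV, mul_comm]
        rfl
    have hzero : aeval (fun i => ∑ j, (v j : Qbar) * V j i) (map (algebraMap ℤ Qbar) F) = 0 := by
      rw [hpt, aeval_map_algebraMap]
      have h1 := congrArg (algebraMap ℤ Qbar) hxy
      rw [map_zero, ← aeval_algebraMap_apply] at h1
      have h2 : (fun i : Fin 2 => ((![x, y] i : ℤ) : Qbar)) = algebraMap ℤ Qbar ∘ ![x, y] := by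
        funext i
        simp
      rw [h2]
      exact h1
    have hmain := hC (map (algebraMap ℤ Qbar) F) V v
      ((Finset.sup_mono (support_map_subset _ _)).trans hF)
      (fun j => ⟨1, one_pos, by
        rw [pow_one]
        obtain ⟨e, he⟩ := (hab j).2.2
        exact Pool.Agent.Q204.UF.mem_grpS S hS _ _ (hv j) e he⟩) hzero
    rcases hmain with hmain | ⟨m, -, hm⟩
    swap
    · exact absurd hm (no_curve _ hno _ m)
    rw [hpt] at hmain
    -- heights of the data
    have hFh : polyHeight D (map (algebraMap ℤ Qbar) F) ≤ Real.log M := by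
      have h1 := Pool.Agent.Q204.UF.hA_int_le (fun α : Exponents D => coeff α.1 F) M hM
        (fun α => hFM _)
      refine le_trans (le_of_eq ?_) h1
      unfold polyHeight height Pool.Agent.Y215.AF.hA
      refine congrArg absLogHeight (funext fun o => ?_)
      cases o with
      | none => rfl
      | some α =>
        show coeff α.1 (map (algebraMap ℤ Qbar) F) = ((coeff α.1 F : ℤ) : Qbar)
        rw [coeff_map]
        simp
    have hVh : height (fun p : Fin r × Fin 2 => V p.1 p.2) ≤ Real.log H := by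
      have h1 := Pool.Agent.Q204.UF.hA_int_le
        (fun p : Fin r × Fin 2 => (![a p.1, b p.1] p.2 : ℤ)) H hH (by
          rintro ⟨j, i⟩
          fin_cases i
          · exact (hab j).1
          · exact (hab j).2.1)
      refine le_trans (le_of_eq ?_) h1
      unfold height Pool.Agent.Y215.AF.hA
      refine congrArg absLogHeight (funext fun o => ?_)
      cases o with
      | none => rfl
      | some p =>
        obtain ⟨j, i⟩ := p
        rw [hV]
        fin_cases i <;> simp
    have hbound : height (fun i : Fin 2 => ((![x, y] i : ℤ) : Qbar)) ≤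
        ⌈C⌉₊ * Real.log (3 * M * H) := by
      have h1 : (1 : ℝ) ≤ Real.log 3 := by
        rw [Real.le_log_iff_exp_le (by norm_num)]
        exact Real.exp_one_lt_d9.le.trans (by norm_num)
      have h2 : Real.log (3 * M * H) = Real.log 3 + Real.log M + Real.log H := by
        have hM0 : (M : ℝ) ≠ 0 := by
          have : (0 : ℝ) < M := by exact_mod_cast hM
          exact this.ne'
        have hH0 : (H : ℝ) ≠ 0 := by
          have : (0 : ℝ) < H := by exact_mod_cast hH
          exact this.ne'
        rw [Real.log_mul (mul_ne_zero (by norm_num) hM0) hH0, Real.log_mul (by norm_num) hM0]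
      have h3 : 1 + polyHeight D (map (algebraMap ℤ Qbar) F) +
          height (fun p : Fin r × Fin 2 => V p.1 p.2) ≤ Real.log (3 * M * H) := by linarith
      have h4 : 0 ≤ Real.log (3 * M * H) := Real.log_nonneg hMH
      refine hmain.trans ?_
      exact (mul_le_mul_of_nonneg_left h3 hC0).trans
        (mul_le_mul_of_nonneg_right (Nat.le_ceil C) h4)
    have hfin : ∀ i : Fin 2, |(![x, y] i : ℤ)| ≤ (3 * M * H) ^ ⌈C⌉₊ := by
      intro i
      have h1 := Pool.Agent.Q204.UF.le_hA_int (fun i : Fin 2 => (![x, y] i : ℤ)) i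
      have h2 : Real.exp (Pool.Agent.Y215.AF.hA (fun i : Fin 2 => ((![x, y] i : ℤ) : Qbar))) ≤
          (3 * M * H : ℝ) ^ ⌈C⌉₊ := by
        rw [← Real.exp_log (pow_pos (lt_of_lt_of_le one_pos hMH) _), Real.log_pow]
        exact Real.exp_le_exp.2 hbound
      have h3 := h1.trans h2
      exact_mod_cast h3
    exact ⟨hfin 0, hfin 1⟩

end Pool.Agent.Results.MP_821da1_nt.LaurentDichotomy
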