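import Mathlib
import Pool.Agent.Q103.SD.Three
import Pool.Agent.Q29.SE.NF

/-!
# Effective bounds for the integer points given by short sums of power products on plane curves

Let `F ∈ ℤ[x, y]` be a polynomial of degree at most `d` and length at most `W` such that the curve
`F = 0` has no nonconstant parametrisation by polynomials over `ℤ` (for instance `F` absolutely
irreducible of genus at least one).  Let `t` be any integer of absolute value at least
`((r + 1) (d + 1) W H N) ^ C`, with the explicit constant `C = (D + 4) 4 ^ ((d + 1) ^ r)`.  We bound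
all integer points `(x, y)` on the curve which can be written as

  `x = ∑_{l ≤ r} u_l t^(m_l) ∏_i F_i(t)^(e_il)`,  `y = ∑_{l ≤ r} w_l t^(m_l) ∏_i F_i(t)^(e_il)`,

with integers `u_l`, `w_l` of absolute value at most `H`, arbitrary exponents `m_l`, and any number of
polynomials `F_i` with integer coefficients of absolute value at most `H`, constant terms `± 1` and
total degree at most `D`, where `∑_i e_il ≤ N` for each `l`. The bound is `max (|x|, |y|) ≤ r H`.
-/

set_option autoImplicit false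

namespace Pool.Agent.Results.MP_821da1_nt.PowerProducts

open Polynomial

/-- The curve `F = 0` has no parametrisation by polynomials with integer coefficients, not both
constant. -/
def NoPoly (F : MvPolynomial (Fin 2) ℤ) : Prop :=
  ∀ p : Fin 2 → ℤ[X], MvPolynomial.aeval p F = 0 → ∀ i, ∃ c : ℤ, p i = C c

/-- `x` and `y` are sums of `r` terms `u_l t^(m_l) ∏_i F_i(t)^(e_il)`, `w_l t^(m_l) ∏_i F_i(t)^(e_il)`
with integers `u_l`, `w_l` of absolute value at most `H`, arbitrary natural numbers `m_l`,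
polynomials `F_i` of total degree at most `D` with integer coefficients of absolute value at most
`H` and constant terms `± 1`, and `∑_i e_il ≤ N`. -/
def PowerSums (t : ℤ) (r D N : ℕ) (H : ℝ) (x y : ℤ) : Prop :=
  ∃ (q : ℕ) (F : Fin q → ℤ[X]) (m : Fin r → ℕ) (e : Fin r → Fin q → ℕ) (u w : Fin r → ℤ),
    ∑ i, (F i).natDegree ≤ D ∧ (∀ i, |(F i).coeff 0| = 1) ∧
    (∀ i j, |(((F i).coeff j : ℤ) : ℝ)| ≤ H) ∧ (∀ l, ∑ i, e l i ≤ N) ∧
    (∀ l, |(u l : ℝ)| ≤ H) ∧ (∀ l, |(w l : ℝ)| ≤ H) ∧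
    x = ∑ l, u l * (t ^ m l * ∏ i, (F i).eval t ^ e l i) ∧
    y = ∑ l, w l * (t ^ m l * ∏ i, (F i).eval t ^ e l i)

/-- The exponent in the condition on `t`. -/
def C₀ (r d D : ℕ) : ℕ := (D + 4) * 4 ^ ((d + 1) ^ r)

open Pool.Agent.Q29.SE Pool.Agent.Q103.SD in
theorem result (F : MvPolynomial (Fin 2) ℤ) (d : ℕ) (hd : 1 ≤ d) (hF : F.totalDegree ≤ d) (W : ℝ)
    (hW : 1 ≤ W) (hFW : ∑ α ∈ F.support, |((MvPolynomial.coeff α F : ℤ) : ℝ)| ≤ W)
    (hyp : NoPoly F) (r D N : ℕ) (hr : 1 ≤ r) (hN : 1 ≤ N) (H : ℝ) (hH : 1 ≤ H) (t : ℤ)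
    (ht : (((r : ℝ) + 1) * (d + 1) * W * H * N) ^ C₀ r d D ≤ |(t : ℝ)|) (x y : ℤ)
    (hxy : MvPolynomial.eval ![x, y] F = 0) (hpow : PowerSums t r D N H x y) :
    |(x : ℝ)| ≤ r * H ∧ |(y : ℝ)| ≤ r * H := by
  obtain ⟨q, P, m, e, u, w, hD, hroot, hPH, heN, hu, hw, hx, hy⟩ := hpow
  have hr1 : (1 : ℝ) ≤ r := by exact_mod_cast hr
  have hN1 : (1 : ℝ) ≤ N := by exact_mod_cast hN
  have hd1 : (1 : ℝ) ≤ d := by exact_mod_cast hd
  obtain ⟨v, hv⟩ : ∃ v : Fin r → Fin 2 → ℤ, v = fun l => ![u l, w l] := ⟨_, rfl⟩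
  have hT : ∀ z : ℤ, t ∣ z → |(z : ℝ)| < (((r : ℝ) + 1) * (d + 1) * W * H * N) ^ expo r d D →
      z = 0 := by
    intro z h1 h2
    have h3 : |(z : ℝ)| < |(t : ℝ)| := h2.trans_le ht
    apply Int.eq_zero_of_abs_lt_dvd ((abs_dvd t z).mpr h1)
    exact_mod_cast h3
  have ht0 : t ≠ 0 := by
    intro h
    rw [h, Int.cast_zero, abs_zero] at ht
    have h1 : (0 : ℝ) < (((r : ℝ) + 1) * (d + 1) * W * H * N) ^ C₀ r d D := by positivity
    linarith
  have hFu : ∀ i, IsUnit ((P i).coeff 0) := fun i => Int.isUnit_iff_abs_eq.mpr (hroot i)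
  have hF0 : ∀ i, |(((P i).coeff 0 : ℤ) : ℝ)| ≤ 1 := fun i => by
    have := hroot i
    have h2 : |(((P i).coeff 0 : ℤ) : ℝ)| = 1 := by exact_mod_cast this
    exact h2.le
  have hvH : ∀ l i, |((v l i : ℤ) : ℝ)| ≤ H := by
    intro l i
    rw [hv]
    fin_cases i
    · simpa using hu l
    · simpa using hw l
  have hev : (fun i => (pt P m e v i).eval t) = ![x, y] := by
    have h1 : ∀ i, (pt P m e v i).eval t = ∑ l, v l i * (t ^ m l * ∏ i, (P i).eval t ^ e l i) := by
      intro i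
      unfold pt
      rw [eval_finsetSum]
      refine Finset.sum_congr rfl fun l _ => ?_
      rw [eval_mul, eval_C, eval_MP, one_mul]
    funext i
    rw [h1, hv]
    fin_cases i
    · simpa using hx.symm
    · simpa using hy.symm
  have hz : MvPolynomial.aeval (pt P m e v) F = 0 := by
    refine zero_pt sizeZ ht0 hT hD hH hFu hF0 hPH m e hN heN v
      (one_le_mul_of_one_le_of_one_le hr1 hH) hvH F hd hF hFW (size_ok hr hd hN hW hH) ?_
    rw [hev]
    rw [MvPolynomial.aeval_def]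
    exact hxy
  have hcon := hyp _ hz
  have hb : ∀ i, |(((fun i => (pt P m e v i).eval t) i : ℤ) : ℝ)| ≤ r * H := by
    intro i
    obtain ⟨c, hc⟩ := hcon i
    have h1 := affine_bound (t := t) sizeZ hF0 m e (fun l => v l i) (fun l => hvH l i) _ c rfl hc
    refine le_trans h1 (mul_le_mul_of_nonneg_right ?_ (by linarith))
    have h2 := Finset.card_le_univ (Finset.univ.filter fun l : Fin r => m l = 0)
    rw [Fintype.card_fin] at h2
    exact_mod_cast h2
  rw [hev] at hb
  exact ⟨hb 0, hb 1⟩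

end Pool.Agent.Results.MP_821da1_nt.PowerProducts
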